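import Mathlib

/-!
# Fractional zero forcing number versus fort number: a counterexample

A graph on 20 vertices with `Z* = Z = 8` and fort number at most `7`.  It is bipartite: on one side
eight vertices `0, …, 7`, on the other side two copies of each of the six sets
`567, 34, 012, 01467, 13457, 15`, adjacent to their elements.
-/

set_option autoImplicit false

namespace Pool.Agent.Results.MP_7d76f2_co.FortGap

open Finset

section defs

variable {V : Type} [Fintype V] [DecidableEq V]

/-- The vertices that become filled when exactly the vertices of `S` are filled at first. -/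
inductive Filled (G : SimpleGraph V) (S : Finset V) : V → Prop
  | init (v : V) : v ∈ S → Filled G S v
  | force (u w : V) : Filled G S u → G.Adj u w → (∀ v, G.Adj u v → v ≠ w → Filled G S v) →
      Filled G S w

/-- Zero forcing sets. -/
def ZeroForcing (G : SimpleGraph V) (S : Finset V) : Prop := ∀ v, Filled G S v

/-- The zero forcing number. -/
noncomputable def zeroForcingNumber (G : SimpleGraph V) : ℕ :=
  sInf {k : ℕ | ∃ S : Finset V, ZeroForcing G S ∧ S.card = k}

/-- Forts: non-empty sets `F` such that no vertex outside `F` has exactly one neighbour in `F`. -/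
def IsFort (G : SimpleGraph V) (F : Finset V) : Prop :=
  F.Nonempty ∧ ∀ v, v ∉ F → ¬ ∃! u, u ∈ F ∧ G.Adj v u

/-- Minimal forts. -/
def IsMinFort (G : SimpleGraph V) (F : Finset V) : Prop :=
  IsFort G F ∧ ∀ F' ⊂ F, ¬ IsFort G F'

/-- The fort number: the largest number of pairwise disjoint forts. -/
noncomputable def fortNumber (G : SimpleGraph V) : ℕ :=
  sSup {k : ℕ | ∃ A : Finset (Finset V), (∀ F ∈ A, IsFort G F) ∧
    (∀ F ∈ A, ∀ F' ∈ A, F ≠ F' → Disjoint F F') ∧ A.card = k}

/-- The fractional zero forcing number: the fractional transversal number of the hypergraph of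
minimal forts. -/
noncomputable def fracZeroForcingNumber (G : SimpleGraph V) : ℝ :=
  sInf {r : ℝ | ∃ x : V → ℝ, (∀ v, 0 ≤ x v) ∧ (∀ F, IsMinFort G F → 1 ≤ ∑ v ∈ F, x v) ∧
    ∑ v, x v = r}

/-! ### General facts -/

omit [Fintype V] [DecidableEq V] in
/-- A zero forcing set meets every fort. -/
theorem ZeroForcing.meets {G : SimpleGraph V} {S : Finset V} (hS : ZeroForcing G S)
    {F : Finset V} (hF : IsFort G F) : ∃ v ∈ F, v ∈ S := by
  by_contra hcon
  push Not at hcon
  have h1 : ∀ v, Filled G S v → v ∉ F := by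
    intro v hv
    induction hv with
    | init v hv => exact fun hvF => hcon v hvF hv
    | force u w _ hadj _ ihu ih =>
      intro hwF
      exact hF.2 u ihu ⟨w, ⟨hwF, hadj⟩, fun v hv => by
        by_contra hne
        exact ih v hv.2 hne hv.1⟩
  obtain ⟨v, hv⟩ := hF.1
  exact h1 v (hS v) hv

omit [Fintype V] [DecidableEq V] in
/-- Every fort contains a minimal fort. -/
theorem IsFort.exists_min {G : SimpleGraph V} (F : Finset V) (hF : IsFort G F) :
    ∃ F' ⊆ F, IsMinFort G F' := by
  induction F using Finset.strongInduction with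
  | H F ih =>
    by_cases h : ∃ F' ⊂ F, IsFort G F'
    · obtain ⟨F', hsub, hF'⟩ := h
      obtain ⟨F'', h1, h2⟩ := ih F' hsub hF'
      exact ⟨F'', h1.trans hsub.subset, h2⟩
    · push Not at h
      exact ⟨F, Subset.refl _, hF, h⟩

omit [Fintype V] [DecidableEq V] in
theorem one_le_sum {G : SimpleGraph V} {x : V → ℝ} (hx : ∀ v, 0 ≤ x v)
    (h : ∀ F, IsMinFort G F → 1 ≤ ∑ v ∈ F, x v) {F : Finset V} (hF : IsFort G F) :
    1 ≤ ∑ v ∈ F, x v := by
  obtain ⟨F', h1, h2⟩ := hF.exists_min
  exact (h F' h2).trans (sum_le_sum_of_subset_of_nonneg h1 fun v _ _ => hx v)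

end defs

/-! ### The graph -/

/-- The six sets. -/
def ed : Fin 6 → Finset (Fin 8) :=
  ![{5, 6, 7}, {3, 4}, {0, 1, 2}, {0, 1, 4, 6, 7}, {1, 3, 4, 5, 7}, {1, 5}]

/-- The vertices. -/
abbrev Vert : Type := Fin 8 ⊕ (Fin 6 × Bool)

/-- The adjacency relation. -/
def adj : Vert → Vert → Prop
  | Sum.inl w, Sum.inr (e, _) => w ∈ ed e
  | Sum.inr (e, _), Sum.inl w => w ∈ ed e
  | _, _ => False

/-- The graph. -/
def G : SimpleGraph Vert where
  Adj := adj
  symm := ⟨by
    rintro (a | ⟨a, b⟩) (c | ⟨c, d⟩) h <;> exact h⟩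
  loopless := ⟨by
    rintro (a | ⟨a, b⟩) h <;> exact h⟩

theorem adj_lr {w : Fin 8} {p : Fin 6 × Bool} : G.Adj (Sum.inl w) (Sum.inr p) ↔ w ∈ ed p.1 :=
  Iff.rfl

theorem adj_rl {w : Fin 8} {p : Fin 6 × Bool} : G.Adj (Sum.inr p) (Sum.inl w) ↔ w ∈ ed p.1 :=
  Iff.rfl

theorem not_adj_ll {w w' : Fin 8} : ¬ G.Adj (Sum.inl w) (Sum.inl w') := fun h => h

theorem not_adj_rr {p p' : Fin 6 × Bool} : ¬ G.Adj (Sum.inr p) (Sum.inr p') := fun h => h

/-- The twin forts. -/
theorem fort_twin (e : Fin 6) : IsFort G {Sum.inr (e, true), Sum.inr (e, false)} := by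
  refine ⟨⟨_, mem_insert_self _ _⟩, ?_⟩
  intro v hv
  rintro ⟨u, ⟨hu, hadj⟩, huniq⟩
  rcases v with w | p
  · have hw : w ∈ ed e := by
      rw [mem_insert, mem_singleton] at hu
      rcases hu with rfl | rfl
      · exact hadj
      · exact hadj
    have h1 := huniq (Sum.inr (e, true)) ⟨by simp, hw⟩
    have h2 := huniq (Sum.inr (e, false)) ⟨by simp, hw⟩
    have h3 := h1.trans h2.symm
    simp at h3
  · rw [mem_insert, mem_singleton] at hu
    rcases hu with rfl | rfl
    · exact not_adj_rr hadj
    · exact not_adj_rr hadj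

/-- The condition for a set of left vertices. -/
def LF (T : Finset (Fin 8)) : Prop := T.Nonempty ∧ ∀ e, ((ed e) ∩ T).card ≠ 1

instance : DecidablePred LF := fun T => by unfold LF; infer_instance

theorem fort_left {T : Finset (Fin 8)} (hT : LF T) : IsFort G (T.image Sum.inl) := by
  refine ⟨hT.1.image _, ?_⟩
  intro v _
  rintro ⟨u, ⟨hu, hadj⟩, huniq⟩
  obtain ⟨w, hw, rfl⟩ := mem_image.1 hu
  rcases v with w' | p
  · exact not_adj_ll hadj
  · apply hT.2 p.1
    rw [card_eq_one]
    refine ⟨w, ?_⟩
    ext w'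
    rw [mem_inter, mem_singleton]
    constructor
    · rintro ⟨h1, h2⟩
      have h3 := huniq (Sum.inl w') ⟨mem_image_of_mem _ h2, h1⟩
      exact Sum.inl_injective h3
    · rintro rfl
      exact ⟨hadj, hw⟩

/-- A fort of left vertices satisfies the condition. -/
theorem left_of_fort {F : Finset Vert} (hF : IsFort G F) (hl : ∀ p, Sum.inr p ∉ F) :
    LF (univ.filter fun w => Sum.inl w ∈ F) := by
  constructor
  · obtain ⟨v, hv⟩ := hF.1
    rcases v with w | p
    · exact ⟨w, mem_filter.2 ⟨mem_univ _, hv⟩⟩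
    · exact absurd hv (hl p)
  · intro e he
    obtain ⟨w, hw⟩ := card_eq_one.1 he
    have hw' : w ∈ ed e ∩ univ.filter fun w => Sum.inl w ∈ F := by
      rw [hw]; exact mem_singleton_self _
    rw [mem_inter, mem_filter] at hw'
    apply hF.2 (Sum.inr (e, true)) (hl _)
    refine ⟨Sum.inl w, ⟨hw'.2.2, hw'.1⟩, ?_⟩
    rintro (w' | p) ⟨h1, h2⟩
    · have h3 : w' ∈ ed e ∩ univ.filter fun w => Sum.inl w ∈ F := by
        rw [mem_inter, mem_filter]
        exact ⟨h2, mem_univ _, h1⟩
      rw [hw, mem_singleton] at h3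
      rw [h3]
    · exact absurd h1 (hl p)

/-! ### Zero forcing sets with eight elements -/

/-- The zero forcing sets. -/
def B (σ : Fin 6 → Bool) : Finset Vert :=
  {Sum.inl 1, Sum.inl 3} ∪ univ.image fun e => Sum.inr (e, σ e)

theorem card_B (σ : Fin 6 → Bool) : (B σ).card = 8 := by
  unfold B
  rw [card_union_of_disjoint, card_image_of_injective, card_univ, Fintype.card_fin,
    card_pair (by simp)]
  · intro e e' h
    simp only [Sum.inr.injEq, Prod.mk.injEq] at h
    exact h.1
  · rw [disjoint_left]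
    intro v hv hv'
    obtain ⟨e, _, rfl⟩ := mem_image.1 hv'
    simp at hv

theorem zeroForcing_B (σ : Fin 6 → Bool) : ZeroForcing G (B σ) := by
  have hu : ∀ e, Filled G (B σ) (Sum.inr (e, σ e)) := fun e =>
    Filled.init _ (mem_union_right _ (mem_image_of_mem _ (mem_univ e)))
  -- forcing a left vertex
  have stepL : ∀ (e : Fin 6) (w : Fin 8), w ∈ ed e →
      (∀ w' ∈ ed e, w' ≠ w → Filled G (B σ) (Sum.inl w')) → Filled G (B σ) (Sum.inl w) := by
    intro e w hw h
    refine Filled.force (Sum.inr (e, σ e)) _ (hu e) hw ?_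
    rintro (w' | p) h1 h2
    · exact h w' h1 fun h3 => h2 (by rw [h3])
    · exact absurd h1 not_adj_rr
  have h1 : Filled G (B σ) (Sum.inl 1) := Filled.init _ (by simp [B])
  have h3 : Filled G (B σ) (Sum.inl 3) := Filled.init _ (by simp [B])
  have h5 : Filled G (B σ) (Sum.inl 5) := by
    refine stepL 5 5 (by decide) fun w hw hne => ?_
    fin_cases w <;> first | exact absurd hw (by decide) | exact absurd rfl hne | assumption
  have h4 : Filled G (B σ) (Sum.inl 4) := by
    refine stepL 1 4 (by decide) fun w hw hne => ?_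
    fin_cases w <;> first | exact absurd hw (by decide) | exact absurd rfl hne | assumption
  have h7 : Filled G (B σ) (Sum.inl 7) := by
    refine stepL 4 7 (by decide) fun w hw hne => ?_
    fin_cases w <;> first | exact absurd hw (by decide) | exact absurd rfl hne | assumption
  have h6 : Filled G (B σ) (Sum.inl 6) := by
    refine stepL 0 6 (by decide) fun w hw hne => ?_
    fin_cases w <;> first | exact absurd hw (by decide) | exact absurd rfl hne | assumption
  have h0 : Filled G (B σ) (Sum.inl 0) := by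
    refine stepL 3 0 (by decide) fun w hw hne => ?_
    fin_cases w <;> first | exact absurd hw (by decide) | exact absurd rfl hne | assumption
  have h2 : Filled G (B σ) (Sum.inl 2) := by
    refine stepL 2 2 (by decide) fun w hw hne => ?_
    fin_cases w <;> first | exact absurd hw (by decide) | exact absurd rfl hne | assumption
  have hl : ∀ w, Filled G (B σ) (Sum.inl w) := by
    intro w
    fin_cases w <;> assumption
  -- forcing the second copy of a set
  have stepR : ∀ (e : Fin 6) (w : Fin 8), w ∈ ed e →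
      (∀ e', w ∈ ed e' → e' ≠ e → ∀ b, Filled G (B σ) (Sum.inr (e', b))) →
      ∀ b, Filled G (B σ) (Sum.inr (e, b)) := by
    intro e w hw h b
    by_cases hb : b = σ e
    · rw [hb]; exact hu e
    refine Filled.force (Sum.inl w) _ (hl w) hw ?_
    rintro (w' | ⟨e', b'⟩) h1 h2
    · exact hl w'
    · by_cases he : e' = e
      · subst he
        have hb' : b' = σ e' := by
          by_contra hne
          apply h2
          have : b' = b := by
            revert hb hne
            cases b <;> cases b' <;> cases (σ e') <;> simp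
          rw [this]
        rw [hb']
        exact hu e'
      · exact h e' h1 he b'
  have k2 : ∀ b, Filled G (B σ) (Sum.inr (2, b)) := by
    refine stepR 2 2 (by decide) fun e he hne => ?_
    fin_cases e <;> first | exact absurd he (by decide) | exact absurd rfl hne | assumption
  have k3 : ∀ b, Filled G (B σ) (Sum.inr (3, b)) := by
    refine stepR 3 0 (by decide) fun e he hne => ?_
    fin_cases e <;> first | exact absurd he (by decide) | exact absurd rfl hne | assumption
  have k0 : ∀ b, Filled G (B σ) (Sum.inr (0, b)) := by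
    refine stepR 0 6 (by decide) fun e he hne => ?_
    fin_cases e <;> first | exact absurd he (by decide) | exact absurd rfl hne | assumption
  have k4 : ∀ b, Filled G (B σ) (Sum.inr (4, b)) := by
    refine stepR 4 7 (by decide) fun e he hne => ?_
    fin_cases e <;> first | exact absurd he (by decide) | exact absurd rfl hne | assumption
  have k1 : ∀ b, Filled G (B σ) (Sum.inr (1, b)) := by
    refine stepR 1 3 (by decide) fun e he hne => ?_
    fin_cases e <;> first | exact absurd he (by decide) | exact absurd rfl hne | assumption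
  have k5 : ∀ b, Filled G (B σ) (Sum.inr (5, b)) := by
    refine stepR 5 5 (by decide) fun e he hne => ?_
    fin_cases e <;> first | exact absurd he (by decide) | exact absurd rfl hne | assumption
  rintro (w | ⟨e, b⟩)
  · exact hl w
  · fin_cases e <;> first | exact k0 b | exact k1 b | exact k2 b | exact k3 b | exact k4 b | exact k5 b

/-! ### The fractional number -/

theorem eight_le {x : Vert → ℝ} (hx : ∀ v, 0 ≤ x v)
    (h : ∀ F, IsMinFort G F → 1 ≤ ∑ v ∈ F, x v) : 8 ≤ ∑ v, x v := by
  have ht : ∀ e : Fin 6, 1 ≤ x (Sum.inr (e, true)) + x (Sum.inr (e, false)) := by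
    intro e
    have h1 := one_le_sum hx h (fort_twin e)
    rwa [sum_pair (by simp)] at h1
  have hL : ∀ T : Finset (Fin 8), LF T → 1 ≤ ∑ w ∈ T, x (Sum.inl w) := by
    intro T hT
    have h1 := one_le_sum hx h (fort_left hT)
    rwa [sum_image (fun a _ b _ hab => Sum.inl_injective hab)] at h1
  have e1 := hL {0, 2, 3, 4} (by decide)
  have e2 := hL {3, 4, 6, 7} (by decide)
  have e3 := hL {0, 1, 5, 6} (by decide)
  have e4 := hL {1, 2, 5, 7} (by decide)
  have f0 := ht 0
  have f1 := ht 1
  have f2 := ht 2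
  have f3 := ht 3
  have f4 := ht 4
  have f5 := ht 5
  rw [Fintype.sum_sum_type, Fintype.sum_prod_type]
  simp only [Fintype.sum_bool, Fin.sum_univ_eight, Fin.sum_univ_six]
  rw [sum_insert (by decide), sum_insert (by decide), sum_insert (by decide), sum_singleton]
    at e1 e2 e3 e4
  linarith

/-- The indicator of a zero forcing set is feasible. -/
theorem feasible {S : Finset Vert} (hS : ZeroForcing G S) :
    (∀ v, (0 : ℝ) ≤ if v ∈ S then 1 else 0) ∧
    (∀ F, IsMinFort G F → (1 : ℝ) ≤ ∑ v ∈ F, if v ∈ S then 1 else 0) ∧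
    ∑ v, (if v ∈ S then (1 : ℝ) else 0) = S.card := by
  refine ⟨fun v => by split_ifs <;> norm_num, fun F hF => ?_, by simp⟩
  obtain ⟨v, hv, hvS⟩ := hS.meets hF.1
  calc (1 : ℝ) = if v ∈ S then 1 else 0 := by rw [if_pos hvS]
    _ ≤ ∑ v ∈ F, if v ∈ S then (1 : ℝ) else 0 :=
      single_le_sum (f := fun v => if v ∈ S then (1 : ℝ) else 0)
        (fun v _ => by split_ifs <;> norm_num) hv

theorem zeroForcingNumber_eq : zeroForcingNumber G = 8 := by
  unfold zeroForcingNumber
  apply le_antisymm
  · exact Nat.sInf_le ⟨B fun _ => true, zeroForcing_B _, card_B _⟩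
  · have hne : {k : ℕ | ∃ S : Finset Vert, ZeroForcing G S ∧ S.card = k}.Nonempty :=
      ⟨8, B fun _ => true, zeroForcing_B _, card_B _⟩
    obtain ⟨S, hS, hc⟩ := Nat.sInf_mem hne
    rw [← hc]
    obtain ⟨f1, f2, f3⟩ := feasible hS
    have h1 := eight_le f1 f2
    rw [f3] at h1
    exact_mod_cast h1

theorem fracZeroForcingNumber_eq : fracZeroForcingNumber G = 8 := by
  unfold fracZeroForcingNumber
  apply le_antisymm
  · obtain ⟨f1, f2, f3⟩ := feasible (zeroForcing_B fun _ => true)
    rw [card_B] at f3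
    apply csInf_le
    · exact ⟨8, by
        rintro r ⟨x, hx, h, rfl⟩
        exact eight_le hx h⟩
    · exact ⟨_, f1, f2, by rw [f3]; norm_num⟩
  · apply le_csInf
    · obtain ⟨f1, f2, f3⟩ := feasible (zeroForcing_B fun _ => true)
      exact ⟨_, _, f1, f2, rfl⟩
    · rintro r ⟨x, hx, h, rfl⟩
      exact eight_le hx h

/-! ### The fort number -/

/-- The six minimal sets of left vertices. -/
def mins : List (Finset (Fin 8)) :=
  [{0, 2, 3, 4}, {0, 1, 5, 6}, {1, 2, 5, 6}, {0, 1, 5, 7}, {1, 2, 5, 7}, {3, 4, 6, 7}]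

theorem mins_inter : ∀ S ∈ mins, ∀ T ∈ mins, (S ∩ T).Nonempty := by decide +kernel

theorem exists_min_left : ∀ T ∈ (univ : Finset (Fin 8)).powerset, LF T → ∃ S ∈ mins, S ⊆ T := by
  decide +kernel

theorem left_inter {T T' : Finset (Fin 8)} (hT : LF T) (hT' : LF T') : (T ∩ T').Nonempty := by
  obtain ⟨S, hS, hST⟩ := exists_min_left T (mem_powerset.2 (subset_univ _)) hT
  obtain ⟨S', hS', hST'⟩ := exists_min_left T' (mem_powerset.2 (subset_univ _)) hT'
  obtain ⟨w, hw⟩ := mins_inter S hS S' hS'
  rw [mem_inter] at hw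
  exact ⟨w, mem_inter.2 ⟨hST hw.1, hST' hw.2⟩⟩

theorem fort_packing {A : Finset (Finset Vert)} (hA : ∀ F ∈ A, IsFort G F)
    (hd : ∀ F ∈ A, ∀ F' ∈ A, F ≠ F' → Disjoint F F') : A.card ≤ 7 := by
  by_contra hcon
  push Not at hcon
  -- every zero forcing set `B σ` is met by each fort exactly once
  have hdisj : ∀ σ, (A : Set (Finset Vert)).PairwiseDisjoint fun F => F ∩ B σ := by
    intro σ F hF F' hF' hne
    exact (hd F hF F' hF' hne).mono inter_subset_left inter_subset_left
  have hone : ∀ σ, ∀ F ∈ A, 1 ≤ (F ∩ B σ).card := by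
    intro σ F hF
    obtain ⟨v, hv, hvB⟩ := (zeroForcing_B σ).meets (hA F hF)
    exact card_pos.2 ⟨v, mem_inter.2 ⟨hv, hvB⟩⟩
  have hsum : ∀ σ, ∑ F ∈ A, (F ∩ B σ).card ≤ 8 := by
    intro σ
    rw [← card_biUnion (hdisj σ)]
    calc (A.biUnion fun F => F ∩ B σ).card ≤ (B σ).card := by
          apply card_le_card
          intro v hv
          obtain ⟨F, _, hvF⟩ := mem_biUnion.1 hv
          exact (mem_inter.1 hvF).2
      _ = 8 := card_B σ
  have hcard : A.card = 8 := by
    have h1 : A.card * 1 ≤ ∑ F ∈ A, (F ∩ B fun _ => true).card := by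
      rw [← smul_eq_mul, ← sum_const]
      exact sum_le_sum fun F hF => hone _ F hF
    have h2 := hsum fun _ => true
    omega
  have hexact : ∀ σ, ∀ F ∈ A, (F ∩ B σ).card = 1 := by
    intro σ F hF
    by_contra hne
    have h1 : 1 < (F ∩ B σ).card := by
      have := hone σ F hF
      omega
    have h2 : ∑ F ∈ A, 1 < ∑ F ∈ A, (F ∩ B σ).card :=
      sum_lt_sum (fun F hF => hone σ F hF) ⟨F, hF, h1⟩
    rw [sum_const, smul_eq_mul, mul_one, hcard] at h2
    have := hsum σ
    omega
  -- the two copies of a set are in the same fort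
  have htwin : ∀ F ∈ A, ∀ e b, Sum.inr (e, b) ∈ F → Sum.inr (e, !b) ∈ F := by
    intro F hF e b hb
    by_contra hnb
    set σ : Fin 6 → Bool := fun _ => b with hσ
    have h1 := hexact σ F hF
    obtain ⟨v, hv⟩ := card_eq_one.1 h1
    have h2 : Sum.inr (e, b) ∈ F ∩ B σ := by
      rw [mem_inter]
      refine ⟨hb, ?_⟩
      unfold B
      rw [mem_union]
      right
      exact mem_image.2 ⟨e, mem_univ _, rfl⟩
    rw [hv, mem_singleton] at h2
    obtain ⟨u, hu⟩ := card_pos.1 (hone (Function.update σ e (!b)) F hF)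
    rw [mem_inter] at hu
    have h3 : u ∈ F ∩ B σ := by
      rw [mem_inter]
      refine ⟨hu.1, ?_⟩
      have h4 := hu.2
      unfold B at h4 ⊢
      rw [mem_union] at h4 ⊢
      rcases h4 with h4 | h4
      · exact Or.inl h4
      · right
        obtain ⟨e', _, rfl⟩ := mem_image.1 h4
        by_cases he : e' = e
        · subst he
          rw [Function.update_self] at hu
          exact absurd hu.1 hnb
        · rw [Function.update_of_ne he]
          exact mem_image.2 ⟨e', mem_univ _, rfl⟩
    rw [hv, mem_singleton] at h3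
    rw [h3, ← h2] at hu
    have h5 := hu.2
    unfold B at h5
    rw [mem_union] at h5
    rcases h5 with h5 | h5
    · simp at h5
    · obtain ⟨e', _, h6⟩ := mem_image.1 h5
      simp only [Sum.inr.injEq, Prod.mk.injEq] at h6
      obtain ⟨h7, h8⟩ := h6
      subst h7
      rw [Function.update_self] at h8
      revert h8
      cases b <;> simp
  -- the forts with right vertices
  classical
  set A₁ : Finset (Finset Vert) := A.filter fun F => ∃ p, Sum.inr p ∈ F with hA₁
  have hA₁c : A₁.card ≤ 6 := by
    have h1 : ∀ F ∈ A₁, ∃ e : Fin 6, Sum.inr (e, true) ∈ F := by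
      intro F hF
      rw [hA₁, mem_filter] at hF
      obtain ⟨hFA, ⟨e, b⟩, hp⟩ := hF
      refine ⟨e, ?_⟩
      cases b with
      | true => exact hp
      | false => exact htwin F hFA e false hp
    choose! g hg using h1
    calc A₁.card ≤ (univ : Finset (Fin 6)).card := by
          apply card_le_card_of_injOn g (fun _ _ => mem_coe.2 (mem_univ _))
          intro F hF F' hF' hgg
          by_contra hne
          have hF1 := (mem_filter.1 hF).1
          have hF2 := (mem_filter.1 hF').1
          have h2 := hd F hF1 F' hF2 hne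
          rw [disjoint_left] at h2
          exact h2 (hg F hF) (by rw [hgg]; exact hg F' hF')
      _ = 6 := by simp
  have hA₂ : 1 < (A \ A₁).card := by
    have hsub : A₁ ⊆ A := filter_subset _ _
    rw [card_sdiff_of_subset hsub]
    omega
  obtain ⟨F, hF, F', hF', hne⟩ := one_lt_card.1 hA₂
  rw [mem_sdiff] at hF hF'
  have hl : ∀ F, F ∈ A → F ∉ A₁ → ∀ p, Sum.inr p ∉ F := by
    intro F hFA hFn p hp
    exact hFn (mem_filter.2 ⟨hFA, p, hp⟩)
  have h1 := left_of_fort (hA F hF.1) (hl F hF.1 hF.2)
  have h2 := left_of_fort (hA F' hF'.1) (hl F' hF'.1 hF'.2)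
  obtain ⟨w, hw⟩ := left_inter h1 h2
  rw [mem_inter, mem_filter, mem_filter] at hw
  have h3 := hd F hF.1 F' hF'.1 hne
  rw [disjoint_left] at h3
  exact h3 hw.1.2 hw.2.2

theorem fortNumber_le : fortNumber G ≤ 7 := by
  unfold fortNumber
  apply csSup_le
  · exact ⟨0, ∅, by simp, by simp, rfl⟩
  · rintro k ⟨A, hA, hd, rfl⟩
    exact fort_packing hA hd

/-- **A counterexample.**  There is a graph (on twenty vertices) whose fractional zero forcing
number equals its zero forcing number although its fort number is smaller. -/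
theorem result : ∃ G : SimpleGraph (Fin 8 ⊕ (Fin 6 × Bool)),
    fracZeroForcingNumber G = (zeroForcingNumber G : ℝ) ∧
      fortNumber G < zeroForcingNumber G := by
  refine ⟨G, ?_, ?_⟩
  · rw [fracZeroForcingNumber_eq, zeroForcingNumber_eq]
    norm_num
  · rw [zeroForcingNumber_eq]
    exact lt_of_le_of_lt fortNumber_le (by norm_num)

end Pool.Agent.Results.MP_7d76f2_co.FortGap
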